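import Pool.Agent.Helper45.CF.GoalsB

/-!
# Project CF (MP_d97caa_an): ROT, the rotated step is unitarily equivalent to the step
-/

open scoped ComplexOrder ZeroAtInfty Topology ComplexConjugate
open TopologicalSpace Filter

namespace Pool.Agent.Helper57.CF.ROT

open Pool.Agent.Helper34.CAR Pool.Agent.Helper39.CR Pool.Agent.Helper45.CF

noncomputable section

/-- The Bott projection has rank one. -/
theorem exists_vec (y : Sphere2) : ∃ a : Fin 2 → ℂ, ∀ i j, bp y i j = a i * conj (a j) := by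
  obtain ⟨⟨t, w⟩, hy⟩ := y
  have hy' : t ^ 2 + ‖w‖ ^ 2 = 1 := hy
  have e00 : bp ⟨(t, w), hy⟩ 0 0 = ((1 + t : ℝ) : ℂ) / 2 := by
    unfold bp; simp
  have e01 : bp ⟨(t, w), hy⟩ 0 1 = conj w / 2 := by
    unfold bp; simp
  have e10 : bp ⟨(t, w), hy⟩ 1 0 = w / 2 := by
    unfold bp; simp
  have e11 : bp ⟨(t, w), hy⟩ 1 1 = ((1 - t : ℝ) : ℂ) / 2 := by
    unfold bp; simp
  by_cases ht : t = -1
  · have hw : w = 0 := by
      have : ‖w‖ ^ 2 = 0 := by rw [ht] at hy'; linarith
      exact norm_eq_zero.1 (pow_eq_zero_iff (two_ne_zero) |>.1 this)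
    refine ⟨fun i => if i = 0 then 0 else 1, fun i j => ?_⟩
    fin_cases i <;> fin_cases j
    · show bp ⟨(t, w), hy⟩ 0 0 = _
      rw [e00, ht]; simp
    · show bp ⟨(t, w), hy⟩ 0 1 = _
      rw [e01, hw]; simp
    · show bp ⟨(t, w), hy⟩ 1 0 = _
      rw [e10, hw]; simp
    · show bp ⟨(t, w), hy⟩ 1 1 = _
      rw [e11, ht]; norm_num
  · have ht1 : -1 ≤ t := by nlinarith [sq_nonneg ‖w‖]
    have ht2 : 0 < 1 + t := by
      have : -1 ≠ t := fun h => ht h.symm
      have := lt_of_le_of_ne ht1 this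
      linarith
    set r : ℝ := Real.sqrt ((1 + t) / 2) with hr
    have hr0 : 0 < r := Real.sqrt_pos.2 (by positivity)
    have hr2 : r * r = (1 + t) / 2 := Real.mul_self_sqrt (by positivity)
    have hrc : (r : ℂ) ≠ 0 := by exact_mod_cast hr0.ne'
    have hr2c : (r : ℂ) * r = (1 + t) / 2 := by
      have := congrArg (fun z : ℝ => (z : ℂ)) hr2
      push_cast at this
      exact this
    have hww : w * conj w = ((1 - t ^ 2 : ℝ) : ℂ) := by
      rw [Complex.mul_conj, Complex.normSq_eq_norm_sq]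
      congr 1
      linarith
    have hww' : w * conj w = (1 - t) * (1 + t) := by
      rw [hww]; push_cast; ring
    refine ⟨fun i => if i = 0 then (r : ℂ) else w / (2 * r), fun i j => ?_⟩
    fin_cases i <;> fin_cases j
    · show bp ⟨(t, w), hy⟩ 0 0 = (r : ℂ) * conj (r : ℂ)
      rw [e00, Complex.conj_ofReal, hr2c]
      push_cast; ring
    · show bp ⟨(t, w), hy⟩ 0 1 = (r : ℂ) * conj (w / (2 * r))
      rw [e01, map_div₀, map_mul, Complex.conj_ofReal, Complex.conj_ofNat]
      field_simp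
    · show bp ⟨(t, w), hy⟩ 1 0 = w / (2 * r) * conj (r : ℂ)
      rw [e10, Complex.conj_ofReal]
      field_simp
    · show bp ⟨(t, w), hy⟩ 1 1 = w / (2 * r) * conj (w / (2 * r))
      rw [e11, map_div₀, map_mul, Complex.conj_ofReal, Complex.conj_ofNat]
      have h1 : w / (2 * r) * (conj w / (2 * r)) = (w * conj w) / (4 * (r * r)) := by
        field_simp
        ring
      rw [h1, hww', hr2c]
      have h3 : (1 + (t : ℂ)) ≠ 0 := by
        have : (1 + t : ℝ) ≠ 0 := ht2.ne'
        exact_mod_cast this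
      push_cast
      field_simp
      ring

variable {B : Type} [CStarAlgebra B] {C : Type} [DecidableEq C]

/-- A scalar block at the indices `c1, c2`, the identity matrix elsewhere. -/
def blk (c1 c2 : C) (u : Fin 2 → Fin 2 → ℂ) : Mt C B := Mt.of fun x x' =>
  if (x = c1 ∨ x = c2) ∧ (x' = c1 ∨ x' = c2) then algebraMap ℂ B (u (ix c1 x) (ix c1 x'))
  else if x = x' then 1 else 0

theorem blk_apply (c1 c2 : C) (u : Fin 2 → Fin 2 → ℂ) (x x' : C) :
    (blk c1 c2 u : Mt C B) x x' = if (x = c1 ∨ x = c2) ∧ (x' = c1 ∨ x' = c2) then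
      algebraMap ℂ B (u (ix c1 x) (ix c1 x')) else if x = x' then 1 else 0 := rfl

theorem ix1 (c1 : C) : ix c1 c1 = 0 := if_pos rfl

theorem ix2 {c1 c2 : C} (h : c2 ≠ c1) : ix c1 c2 = 1 := if_neg h

theorem blk_out {c1 c2 x x' : C} (u : Fin 2 → Fin 2 → ℂ) (hx : x = c1 ∨ x = c2)
    (h1 : x' ≠ c1) (h2 : x' ≠ c2) : (blk c1 c2 u : Mt C B) x x' = 0 := by
  rw [blk_apply, if_neg (fun h => h.2.elim h1 h2), if_neg]
  rintro rfl
  exact hx.elim h1 h2

variable [Fintype C]

theorem blk_mul {c1 c2 : C} (hc : c2 ≠ c1) (u : Fin 2 → Fin 2 → ℂ) (M : Mt C B) (x x' : C) :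
    (blk c1 c2 u * M : Mt C B) x x' = if x = c1 then u 0 0 • M c1 x' + u 0 1 • M c2 x' else
      if x = c2 then u 1 0 • M c1 x' + u 1 1 • M c2 x' else M x x' := by
  rw [Mt.mul_apply]
  by_cases h1 : x = c1
  · subst h1
    rw [if_pos rfl, Fintype.sum_eq_add x c2 hc.symm]
    · rw [blk_apply, blk_apply, if_pos ⟨Or.inl rfl, Or.inl rfl⟩, if_pos ⟨Or.inl rfl, Or.inr rfl⟩,
        ix1, ix2 hc, Algebra.smul_def, Algebra.smul_def]
    · intro z hz
      rw [blk_apply, if_neg (fun h => h.2.elim hz.1 hz.2), if_neg (Ne.symm hz.1), zero_mul]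
  · rw [if_neg h1]
    by_cases h2 : x = c2
    · subst h2
      rw [if_pos rfl, Fintype.sum_eq_add c1 x hc.symm]
      · rw [blk_apply, blk_apply, if_pos ⟨Or.inr rfl, Or.inl rfl⟩,
          if_pos ⟨Or.inr rfl, Or.inr rfl⟩, ix1, ix2 hc, Algebra.smul_def, Algebra.smul_def]
      · intro z hz
        rw [blk_apply, if_neg (fun h => h.2.elim hz.1 hz.2), if_neg (Ne.symm hz.2), zero_mul]
    · rw [if_neg h2, Fintype.sum_eq_single x]
      · rw [blk_apply, if_neg (fun h => h.1.elim h1 h2), if_pos rfl, one_mul]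
      · intro z hz
        rw [blk_apply, if_neg (fun h => h.1.elim h1 h2), if_neg (Ne.symm hz), zero_mul]

theorem mul_blk {c1 c2 : C} (hc : c2 ≠ c1) (u : Fin 2 → Fin 2 → ℂ) (M : Mt C B) (x x' : C) :
    (M * blk c1 c2 u : Mt C B) x x' = if x' = c1 then u 0 0 • M x c1 + u 1 0 • M x c2 else
      if x' = c2 then u 0 1 • M x c1 + u 1 1 • M x c2 else M x x' := by
  rw [Mt.mul_apply]
  by_cases h1 : x' = c1
  · subst h1
    rw [if_pos rfl, Fintype.sum_eq_add x' c2 hc.symm]
    · rw [blk_apply, blk_apply, if_pos ⟨Or.inl rfl, Or.inl rfl⟩, if_pos ⟨Or.inr rfl, Or.inl rfl⟩,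
        ix1, ix2 hc, Algebra.smul_def, Algebra.smul_def, Algebra.commutes, Algebra.commutes]
    · intro z hz
      rw [blk_apply, if_neg (fun h => h.1.elim hz.1 hz.2), if_neg hz.1, mul_zero]
  · rw [if_neg h1]
    by_cases h2 : x' = c2
    · subst h2
      rw [if_pos rfl, Fintype.sum_eq_add c1 x' hc.symm]
      · rw [blk_apply, blk_apply, if_pos ⟨Or.inl rfl, Or.inr rfl⟩,
          if_pos ⟨Or.inr rfl, Or.inr rfl⟩, ix1, ix2 hc, Algebra.smul_def, Algebra.smul_def,
          Algebra.commutes, Algebra.commutes]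
      · intro z hz
        rw [blk_apply, if_neg (fun h => h.1.elim hz.1 hz.2), if_neg hz.2, mul_zero]
    · rw [if_neg h2, Fintype.sum_eq_single x']
      · rw [blk_apply, if_neg (fun h => h.2.elim h1 h2), if_pos rfl, mul_one]
      · intro z hz
        rw [blk_apply, if_neg (fun h => h.2.elim h1 h2), if_neg hz, mul_zero]

theorem star_blk (c1 c2 : C) (u : Fin 2 → Fin 2 → ℂ) :
    star (blk c1 c2 u : Mt C B) = blk c1 c2 fun i j => conj (u j i) := by
  ext x x'
  rw [Mt.star_apply, blk_apply, blk_apply]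
  by_cases h : (x = c1 ∨ x = c2) ∧ (x' = c1 ∨ x' = c2)
  · rw [if_pos h, if_pos h.symm, ← algebraMap_star_comm]
    rfl
  · rw [if_neg h, if_neg (fun h' => h h'.symm)]
    by_cases h2 : x = x'
    · rw [if_pos h2, if_pos h2.symm, star_one]
    · rw [if_neg h2, if_neg (Ne.symm h2), star_zero]

theorem blk_mul_blk {c1 c2 : C} (hc : c2 ≠ c1) (u v : Fin 2 → Fin 2 → ℂ)
    (h00 : u 0 0 * v 0 0 + u 0 1 * v 1 0 = 1) (h01 : u 0 0 * v 0 1 + u 0 1 * v 1 1 = 0)
    (h10 : u 1 0 * v 0 0 + u 1 1 * v 1 0 = 0) (h11 : u 1 0 * v 0 1 + u 1 1 * v 1 1 = 1) :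
    (blk c1 c2 u * blk c1 c2 v : Mt C B) = 1 := by
  ext x x'
  rw [blk_mul hc, Mt.one_apply]
  have b11 : (blk c1 c2 v : Mt C B) c1 c1 = algebraMap ℂ B (v 0 0) := by
    rw [blk_apply, if_pos ⟨Or.inl rfl, Or.inl rfl⟩, ix1]
  have b12 : (blk c1 c2 v : Mt C B) c1 c2 = algebraMap ℂ B (v 0 1) := by
    rw [blk_apply, if_pos ⟨Or.inl rfl, Or.inr rfl⟩, ix1, ix2 hc]
  have b21 : (blk c1 c2 v : Mt C B) c2 c1 = algebraMap ℂ B (v 1 0) := by
    rw [blk_apply, if_pos ⟨Or.inr rfl, Or.inl rfl⟩, ix1, ix2 hc]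
  have b22 : (blk c1 c2 v : Mt C B) c2 c2 = algebraMap ℂ B (v 1 1) := by
    rw [blk_apply, if_pos ⟨Or.inr rfl, Or.inr rfl⟩, ix2 hc]
  have comb : ∀ (a b c d : ℂ), a • algebraMap ℂ B b + c • algebraMap ℂ B d =
      algebraMap ℂ B (a * b + c * d) := fun a b c d => by
    rw [map_add, map_mul, map_mul, Algebra.smul_def, Algebra.smul_def]
  by_cases h1 : x = c1
  · subst h1
    rw [if_pos rfl]
    by_cases h2 : x' = x
    · subst h2
      rw [b11, b21, comb, h00, map_one, if_pos rfl]
    · rw [if_neg (Ne.symm h2)]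
      by_cases h3 : x' = c2
      · subst h3
        rw [b12, b22, comb, h01, map_zero]
      · rw [blk_out v (Or.inl rfl) h2 h3, blk_out v (Or.inr rfl) h2 h3, smul_zero, smul_zero,
          add_zero]
  · rw [if_neg h1]
    by_cases h1' : x = c2
    · subst h1'
      rw [if_pos rfl]
      by_cases h2 : x' = c1
      · subst h2
        rw [b11, b21, comb, h10, map_zero, if_neg hc]
      · by_cases h3 : x' = x
        · subst h3
          rw [b12, b22, comb, h11, map_one, if_pos rfl]
        · rw [blk_out v (Or.inl rfl) h2 h3, blk_out v (Or.inr rfl) h2 h3, smul_zero, smul_zero,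
            add_zero, if_neg (Ne.symm h3)]
    · rw [if_neg h1', blk_apply, if_neg (fun h => h.1.elim h1 h1')]

theorem t : S_ROT := by
  intro B _ ω C _ _ c0 c1 c2 K hK1 hK2 hom y
  obtain ⟨-, hc, hK3, hK4⟩ := hom
  obtain ⟨a, ha⟩ := exists_vec y
  have htr : a 0 * conj (a 0) + a 1 * conj (a 1) = 1 := by
    rw [← ha, ← ha]
    unfold bp
    simp only [if_true, one_ne_zero, if_false]
    push_cast
    ring
  let u : Fin 2 → Fin 2 → ℂ := fun i j =>
    if i = 0 then (if j = 0 then a 0 else -conj (a 1)) else (if j = 0 then a 1 else conj (a 0))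
  have u00 : u 0 0 = a 0 := rfl
  have u01 : u 0 1 = -conj (a 1) := rfl
  have u10 : u 1 0 = a 1 := rfl
  have u11 : u 1 1 = conj (a 0) := rfl
  refine ⟨blk c1 c2 u, ?_, ?_, ?_⟩
  · rw [star_blk]
    refine blk_mul_blk hc _ _ ?_ ?_ ?_ ?_
    · show conj (u 0 0) * u 0 0 + conj (u 1 0) * u 1 0 = 1
      rw [u00, u10, ← htr]
      ring
    · show conj (u 0 0) * u 0 1 + conj (u 1 0) * u 1 1 = 0
      rw [u00, u10, u01, u11]
      ring
    · show conj (u 0 1) * u 0 0 + conj (u 1 1) * u 1 0 = 0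
      rw [u00, u10, u01, u11, map_neg, Complex.conj_conj, Complex.conj_conj]
      ring
    · show conj (u 0 1) * u 0 1 + conj (u 1 1) * u 1 1 = 1
      rw [u01, u11, map_neg, Complex.conj_conj, Complex.conj_conj, ← htr]
      ring
  · rw [star_blk]
    refine blk_mul_blk hc _ _ ?_ ?_ ?_ ?_
    · show u 0 0 * conj (u 0 0) + u 0 1 * conj (u 0 1) = 1
      rw [u00, u01, map_neg, Complex.conj_conj, ← htr]
      ring
    · show u 0 0 * conj (u 1 0) + u 0 1 * conj (u 1 1) = 0
      rw [u00, u10, u01, u11, Complex.conj_conj]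
      ring
    · show u 1 0 * conj (u 0 0) + u 1 1 * conj (u 0 1) = 0
      rw [u00, u10, u01, u11, map_neg, Complex.conj_conj]
      ring
    · show u 1 0 * conj (u 1 0) + u 1 1 * conj (u 1 1) = 1
      rw [u10, u11, Complex.conj_conj, ← htr]
      ring
  · intro b x x'
    rw [star_blk, mul_blk hc]
    show rotE ω c1 c2 K y b x x' = if x' = c1 then
      conj (u 0 0) • (blk c1 c2 u * K b : Mt C B) x c1 +
        conj (u 0 1) • (blk c1 c2 u * K b : Mt C B) x c2 else if x' = c2 then
      conj (u 1 0) • (blk c1 c2 u * K b : Mt C B) x c1 +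
        conj (u 1 1) • (blk c1 c2 u * K b : Mt C B) x c2 else
      (blk c1 c2 u * K b : Mt C B) x x'
    rw [blk_mul hc, blk_mul hc, blk_mul hc, u00, u01, u10, u11, map_neg, Complex.conj_conj,
      Complex.conj_conj, hK1, hK3, (hK2 b c2 hc).2, (hK2 b c2 hc).1]
    unfold rotE
    by_cases h1 : x = c1
    · subst h1
      by_cases h2 : x' = x
      · subst h2
        rw [if_pos ⟨Or.inl rfl, Or.inl rfl⟩, if_pos rfl, if_pos rfl, if_pos rfl, if_pos rfl, ix1,
          ha, smul_zero, smul_zero, add_zero, zero_add, smul_smul, smul_smul]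
        congr 1
        · congr 1
          ring
        · congr 1
          rw [← htr]
          ring
      · by_cases h3 : x' = c2
        · subst h3
          rw [if_pos ⟨Or.inl rfl, Or.inr rfl⟩, if_neg h2, if_pos rfl, if_neg (Ne.symm h2),
            if_pos rfl, if_pos rfl, ix1, ix2 hc, ha, smul_zero, smul_zero, add_zero, zero_add,
            smul_smul, smul_smul]
          congr 1
          · congr 1
            ring
          · congr 1
            ring
        · rw [if_neg (fun h => h.2.elim h2 h3), if_neg h2, if_neg h3, if_pos rfl,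
            (hK2 b x' h2).1, (hK4 b x' h3).1, smul_zero, smul_zero, add_zero]
    · by_cases h1' : x = c2
      · subst h1'
        by_cases h2 : x' = c1
        · subst h2
          rw [if_pos ⟨Or.inr rfl, Or.inl rfl⟩, if_pos rfl, if_neg h1, if_pos rfl, if_neg h1,
            if_neg h1, if_pos rfl, ix1, ix2 hc, ha, smul_zero, smul_zero, add_zero, zero_add,
            smul_smul, smul_smul]
          congr 1
          · congr 1
            ring
          · congr 1
            ring
        · by_cases h3 : x' = x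
          · subst h3
            rw [if_pos ⟨Or.inr rfl, Or.inr rfl⟩, if_neg h2, if_pos rfl, if_pos rfl, if_neg h2,
              if_pos rfl, if_neg h2, if_pos rfl, ix2 hc, ha, smul_zero, smul_zero, add_zero,
              zero_add, smul_smul, smul_smul]
            congr 1
            · congr 1
              ring
            · congr 1
              rw [← htr]
              ring
          · rw [if_neg (fun h => h.2.elim h2 h3), if_neg h2, if_neg h3, if_neg h1, if_pos rfl,
              (hK2 b x' h2).1, (hK4 b x' h3).1, smul_zero, smul_zero, add_zero]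
      · rw [if_neg (fun h => h.1.elim h1 h1'), if_neg h1, if_neg h1', if_neg h1, if_neg h1',
          if_neg h1, if_neg h1', (hK2 b x h1).2, (hK4 b x h1').2, smul_zero, smul_zero, add_zero,
          smul_zero, smul_zero, add_zero]
        by_cases h2 : x' = c1
        · subst h2
          rw [if_pos rfl, (hK2 b x h1).2]
        · rw [if_neg h2]
          by_cases h3 : x' = c2
          · subst h3
            rw [if_pos rfl, (hK4 b x h1').2]
          · rw [if_neg h3]

end

end Pool.Agent.Helper57.CF.ROT
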