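import Pool.Agent.Helper55.CF.Goals

/-!
# Packet BETA (MP_b612a6_ag): singular points of small rank over a rank zero point
-/

open MeasureTheory Complex

noncomputable section
namespace CF55

namespace PkBeta

/-- isotropic pair in a nondegenerate binary quadratic space -/
theorem isotropic (B : V →ₗ[ℂ] V →ₗ[ℂ] ℂ) (hB : ∀ x y, B x y = B y x) (a b : V)
    (h : B a a * B b b ≠ B a b ^ 2) :
    ∃ f₁ f₂ : V, B f₁ f₁ = 0 ∧ B f₂ f₂ = 0 ∧ B f₁ f₂ ≠ 0 := by
  by_cases hγ : B b b = 0
  · have hβ : B a b ≠ 0 := by
      intro h0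
      apply h
      rw [hγ, h0]
      ring
    refine ⟨a - (B a a / (2 * B a b)) • b, b, ?_, hγ, ?_⟩
    · simp only [map_sub, map_smul, LinearMap.sub_apply, LinearMap.smul_apply, smul_eq_mul]
      rw [hγ, hB b a]
      field_simp
      ring
    · simp only [map_sub, map_smul, LinearMap.sub_apply, LinearMap.smul_apply, smul_eq_mul]
      rw [hγ]
      simpa using hβ
  · obtain ⟨δ, hδ⟩ := IsAlgClosed.exists_pow_nat_eq (B a b ^ 2 - B a a * B b b) (n := 2) two_pos
    refine ⟨a + ((-B a b + δ) / B b b) • b, a + ((-B a b - δ) / B b b) • b, ?_, ?_, ?_⟩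
    · simp only [map_add, map_smul, LinearMap.add_apply, LinearMap.smul_apply, smul_eq_mul]
      rw [hB b a]
      field_simp
      linear_combination hδ
    · simp only [map_add, map_smul, LinearMap.add_apply, LinearMap.smul_apply, smul_eq_mul]
      rw [hB b a]
      field_simp
      linear_combination hδ
    · simp only [map_add, map_smul, LinearMap.add_apply, LinearMap.smul_apply, smul_eq_mul]
      rw [hB b a]
      intro h0
      apply h
      field_simp at h0
      linear_combination (1 / 2 : ℂ) * h0 + (1 / 2 : ℂ) * hδ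

theorem wt (a b c : Fin 6) :
    (a = 5 ∨ b = 5 ∨ c = 5) ∨
    ((a = 0 ∧ (b = 0 ∨ b = 4)) ∨ (b = 0 ∧ (a = 0 ∨ a = 4)) ∨ (a = 0 ∧ (c = 0 ∨ c = 4)) ∨
      (c = 0 ∧ (a = 0 ∨ a = 4)) ∨ (b = 0 ∧ (c = 0 ∨ c = 4)) ∨ (c = 0 ∧ (b = 0 ∨ b = 4))) ∨
    12 ≤ (![0, 6, 6, 6, 4, 1] : Fin 6 → ℕ) a + (![0, 6, 6, 6, 4, 1] : Fin 6 → ℕ) b
      + (![0, 6, 6, 6, 4, 1] : Fin 6 → ℕ) c := by
  revert a b c
  decide

end PkBeta

open PkBeta

theorem stmtBETA : G_BETA := by
  intro T P s hT hP hs hz
  obtain ⟨hlin, hss⟩ := hs
  obtain ⟨z, hPsz, hsz⟩ := hz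
  have hB : ∀ x y, T s x y = T s y x := fun x y => hT.s23 s x y
  by_cases hcase : ∀ v v', T s v v * T s v' v' = T s v v' ^ 2
  · left
    by_cases h0 : ∀ v, T s v v = 0
    · exact ⟨0, fun v => by simp [h0 v]⟩
    · push Not at h0
      obtain ⟨p, hp⟩ := h0
      obtain ⟨c, hc⟩ := IsAlgClosed.exists_pow_nat_eq (T s p p) (n := 2) two_pos
      refine ⟨c⁻¹ • (T s p), fun v => ?_⟩
      have hc0 : c ≠ 0 := by
        intro h
        apply hp
        rw [← hc, h]
        ring
      rw [LinearMap.smul_apply, smul_eq_mul, mul_pow, ← hcase p v, ← hc]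
      field_simp
  · right
    push Not at hcase
    obtain ⟨a, b, hab⟩ := hcase
    obtain ⟨f₁, f₂, h11, h22, h12⟩ := isotropic (T s) hB a b hab
    -- the orthogonal complement
    set Φ : V →ₗ[ℂ] ℂ × ℂ := (T s f₁).prod (T s f₂) with hΦ
    have hker : 4 ≤ Module.finrank ℂ (LinearMap.ker Φ) := by
      have h1 := LinearMap.finrank_range_add_finrank_ker Φ
      have h2 : Module.finrank ℂ (LinearMap.range Φ) ≤ 2 := by
        refine (Submodule.finrank_le _).trans ?_
        simp
      have h3 : Module.finrank ℂ V = 6 := by simp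
      omega
    have hspan : Module.finrank ℂ (Submodule.span ℂ (Set.range ![P, s, z])) ≤ 3 := by
      refine (finrank_range_le_card _).trans ?_
      simp
    obtain ⟨e3, he3, he3'⟩ : ∃ e3 ∈ LinearMap.ker Φ,
        e3 ∉ Submodule.span ℂ (Set.range ![P, s, z]) := by
      by_contra hcon
      push Not at hcon
      have : LinearMap.ker Φ ≤ Submodule.span ℂ (Set.range ![P, s, z]) := hcon
      have := Submodule.finrank_mono this
      omega
    have h13 : T s f₁ e3 = 0 := congrArg Prod.fst (LinearMap.mem_ker.mp he3)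
    have h23 : T s f₂ e3 = 0 := congrArg Prod.snd (LinearMap.mem_ker.mp he3)
    have hsf : ∀ f, T s f s = 0 := fun f => by rw [hB, hss]
    have hzf : ∀ f, T s f z = 0 := fun f => by rw [hB, hsz]
    have hPf : ∀ f, T s f P = 0 := fun f => by rw [hB, hT.s12, hP]
    refine ⟨![s, f₁, f₂, e3, z, P], ![0, 6, 6, 6, 4, 1], 12, ?_⟩
    have hli : LinearIndependent ℂ ![s, f₁, f₂, e3, z, P] := by
      rw [Fintype.linearIndependent_iff]
      intro g hg
      rw [Fin.sum_univ_six] at hg
      change g 0 • s + g 1 • f₁ + g 2 • f₂ + g 3 • e3 + g 4 • z + g 5 • P = 0 at hg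
      have k2 : g 2 = 0 := by
        have := congrArg (T s f₁) hg
        simp only [map_add, map_smul, smul_eq_mul, hsf, hzf, hPf, h11, h13, map_zero,
          mul_zero, zero_add, add_zero] at this
        exact (mul_eq_zero.mp this).resolve_right h12
      have k1 : g 1 = 0 := by
        have := congrArg (T s f₂) hg
        simp only [map_add, map_smul, smul_eq_mul, hsf, hzf, hPf, h22, h23, map_zero,
          mul_zero, zero_add, add_zero] at this
        rw [hB] at this
        exact (mul_eq_zero.mp this).resolve_right h12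
      rw [k1, k2, zero_smul, zero_smul, add_zero, add_zero] at hg
      have k3 : g 3 = 0 := by
        by_contra hne
        apply he3'
        have : e3 = (-(g 3)⁻¹ * g 0) • s + (-(g 3)⁻¹ * g 4) • z + (-(g 3)⁻¹ * g 5) • P := by
          have h5 : g 3 • e3 = -(g 0 • s) - g 4 • z - g 5 • P := by
            rw [← sub_eq_zero]
            rw [← hg]
            abel
          have h6 : e3 = (g 3)⁻¹ • (g 3 • e3) := by
            rw [smul_smul, inv_mul_cancel₀ hne, one_smul]
          rw [h6, h5]
          module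
        rw [this]
        refine Submodule.add_mem _ (Submodule.add_mem _ ?_ ?_) ?_
        · exact Submodule.smul_mem _ _ (Submodule.subset_span ⟨1, rfl⟩)
        · exact Submodule.smul_mem _ _ (Submodule.subset_span ⟨2, rfl⟩)
        · exact Submodule.smul_mem _ _ (Submodule.subset_span ⟨0, rfl⟩)
      rw [k3, zero_smul, add_zero] at hg
      have hl := Fintype.linearIndependent_iff.mp hPsz ![g 5, g 0, g 4] (by
        rw [Fin.sum_univ_three]
        change g 5 • P + g 0 • s + g 4 • z = 0
        rw [← hg]
        abel)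
      have k5 : g 5 = 0 := hl 0
      have k0 : g 0 = 0 := hl 1
      have k4 : g 4 = 0 := hl 2
      intro i
      fin_cases i
      · exact k0
      · exact k1
      · exact k2
      · exact k3
      · exact k4
      · exact k5
    refine ⟨hli, rfl, ?_, rfl, le_refl _, ?_, ?_, h11, h22, h12, ?_⟩
    · intro i hi
      fin_cases i
      · exact absurd rfl hi
      all_goals decide
    · rw [Fin.sum_univ_six]
      decide
    · intro c
      exact hss _
    · intro a b c hne
      rcases wt a b c with h | h | h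
      · exfalso
        apply hne
        rcases h with rfl | rfl | rfl
        · exact hP _ _
        · rw [hT.s12]
          exact hP _ _
        · rw [hT.s23, hT.s12]
          exact hP _ _
      · exfalso
        apply hne
        have hs0 : ∀ v, T (![s, f₁, f₂, e3, z, P] 0) (![s, f₁, f₂, e3, z, P] 0) v = 0 :=
          fun v => hss v
        have hs4 : ∀ v, T (![s, f₁, f₂, e3, z, P] 0) (![s, f₁, f₂, e3, z, P] 4) v = 0 :=
          fun v => hsz v
        have key : ∀ x y : Fin 6, (x = 0 ∧ (y = 0 ∨ y = 4)) → ∀ v,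
            T (![s, f₁, f₂, e3, z, P] x) (![s, f₁, f₂, e3, z, P] y) v = 0 := by
          rintro x y ⟨rfl, rfl | rfl⟩ v
          · exact hs0 v
          · exact hs4 v
        rcases h with h | h | h | h | h | h
        · exact key _ _ h _
        · rw [hT.s12]
          exact key _ _ h _
        · rw [hT.s23]
          exact key _ _ h _
        · rw [hT.s23, hT.s12]
          exact key _ _ h _
        · rw [hT.s12, hT.s23]
          exact key _ _ h _
        · rw [hT.s23, hT.s12, hT.s23]
          exact key _ _ h _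
      · exact h

end CF55
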