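import Pool.Agent.Helper55.CF.Goals

/-!
# Packet POLAR (MP_b612a6_ag): polarisation of cubic forms
-/

open MeasureTheory Complex

noncomputable section
namespace CF55

namespace PkPolar

/-- `x, y, z ↦ a x * b y * c z` -/
def tri (a b c : V →ₗ[ℂ] ℂ) : Tri := a.smulRight (b.smulRight c)

theorem tri_apply (a b c : V →ₗ[ℂ] ℂ) (x y z : V) : tri a b c x y z = a x * b y * c z := by
  simp [tri, mul_assoc]

def pr (i : Fin 6) : V →ₗ[ℂ] ℂ := LinearMap.proj i

def sy (i j k : Fin 6) : Tri :=
  (1 / 6 : ℂ) • (tri (pr i) (pr j) (pr k) + tri (pr i) (pr k) (pr j) + tri (pr j) (pr i) (pr k)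
    + tri (pr j) (pr k) (pr i) + tri (pr k) (pr i) (pr j) + tri (pr k) (pr j) (pr i))

theorem sy_apply (i j k : Fin 6) (x y z : V) : sy i j k x y z =
    (1 / 6 : ℂ) * (x i * y j * z k + x i * y k * z j + x j * y i * z k + x j * y k * z i
      + x k * y i * z j + x k * y j * z i) := by
  simp only [sy, LinearMap.smul_apply, LinearMap.add_apply, tri_apply, smul_eq_mul, pr,
    LinearMap.proj_apply]

theorem sy_sym (i j k : Fin 6) : Sym (sy i j k) := by
  constructor
  · intro x y z
    rw [sy_apply, sy_apply]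
    ring
  · intro x y z
    rw [sy_apply, sy_apply]
    ring

theorem sy_diag (i j k : Fin 6) (v : V) : sy i j k v v v = v i * v j * v k := by
  rw [sy_apply]
  ring

def Pol (F : MvPolynomial (Fin 6) ℂ) : Prop :=
  ∃ T : Tri, Sym T ∧ ∀ v : V, MvPolynomial.eval v F = T v v v

theorem pol_zero : Pol 0 := ⟨0, ⟨fun _ _ _ => rfl, fun _ _ _ => rfl⟩, fun v => by simp⟩

theorem pol_add {F G : MvPolynomial (Fin 6) ℂ} (hF : Pol F) (hG : Pol G) : Pol (F + G) := by
  obtain ⟨T, hT, h1⟩ := hF
  obtain ⟨U, hU, h2⟩ := hG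
  refine ⟨T + U, ⟨fun x y z => ?_, fun x y z => ?_⟩, fun v => ?_⟩
  · simp only [LinearMap.add_apply]
    rw [hT.s12, hU.s12]
  · simp only [LinearMap.add_apply]
    rw [hT.s23, hU.s23]
  · simp only [LinearMap.add_apply, map_add]
    rw [h1, h2]

theorem pol_sum {ι : Type*} (s : Finset ι) (f : ι → MvPolynomial (Fin 6) ℂ)
    (h : ∀ i ∈ s, Pol (f i)) : Pol (∑ i ∈ s, f i) :=
  Finset.sum_induction f Pol (fun _ _ => pol_add) pol_zero h

theorem pol_monomial (d : Fin 6 →₀ ℕ) (hd : d.degree = 3) (c : ℂ) :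
    Pol (MvPolynomial.monomial d c) := by
  have hcard : Multiset.card (Finsupp.toMultiset d) = 3 := by
    rw [Finsupp.card_toMultiset]
    exact hd
  obtain ⟨i, j, k, hijk⟩ := Multiset.card_eq_three.mp hcard
  have hd' : d = Finsupp.single i 1 + (Finsupp.single j 1 + Finsupp.single k 1) := by
    have h1 := congrArg Multiset.toFinsupp hijk
    rw [Finsupp.toMultiset_toFinsupp] at h1
    rw [h1]
    have : ({i, j, k} : Multiset (Fin 6)) = {i} + ({j} + {k}) := rfl
    rw [this, map_add, map_add, Multiset.toFinsupp_singleton, Multiset.toFinsupp_singleton,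
      Multiset.toFinsupp_singleton]
  have hm : MvPolynomial.monomial d c = MvPolynomial.C c * (MvPolynomial.X i *
      (MvPolynomial.X j * MvPolynomial.X k)) := by
    rw [hd']
    simp only [MvPolynomial.X, MvPolynomial.C_mul_monomial, MvPolynomial.monomial_mul, mul_one]
  refine ⟨c • sy i j k, ⟨fun x y z => ?_, fun x y z => ?_⟩, fun v => ?_⟩
  · simp only [LinearMap.smul_apply]
    rw [(sy_sym i j k).s12]
  · simp only [LinearMap.smul_apply]
    rw [(sy_sym i j k).s23]
  · simp only [LinearMap.smul_apply]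
    rw [sy_diag, hm]
    simp only [map_mul, MvPolynomial.eval_C, MvPolynomial.eval_X, smul_eq_mul]
    ring

end PkPolar

open PkPolar

theorem stmtPOLAR : G_POLAR := by
  intro F hF
  have h : Pol F := by
    rw [← MvPolynomial.support_sum_monomial_coeff F]
    apply pol_sum
    intro d hd
    apply pol_monomial
    rw [MvPolynomial.mem_support_iff] at hd
    have := hF hd
    rw [← this, Finsupp.degree_eq_weight_one]
    rfl
  exact h

end CF55
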